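import Pool.Agent.Helper65.CS.Goals2

/-!
# Packet CS-PRG: some candidate is good
-/

namespace Pool.Agent.Helper87.CS

open Pool.Agent.Helper81.CC Pool.Agent.Helper78.DT Pool.Agent.Helper51.ZP Pool.Agent.Helper65.CS
open scoped Classical

/-- The fraction of the restricted list. -/
theorem frac_rst (hR : RstStmt) (hT : TdlStmt) (n W : ℕ) (G : DList) (hG : NF n W G)
    (e : List (ℕ × Bool)) (h1 : (e.map Prod.fst).Nodup) (h2 : ∀ p ∈ e, p.1 < n) :
    frac n (rst e G) = pr fun x : Fin n → Bool => ev (tdl n G) (ovr e x) = true := by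
  rw [(hT n W (rst e G) (hR.1 n W e G hG).1).2.2.2.2]
  refine pr_congr fun x => ?_
  rw [← (hT n W (rst e G) (hR.1 n W e G hG).1).2.2.2.1 x, hR.2 n e G x h1 h2,
    (hT n W G hG).2.2.2.1]

/-- Overwriting one variable. -/
theorem ovr_one {n : ℕ} (v : ℕ) (hv : v < n) (c : Bool) (x : Fin n → Bool) :
    ovr [(v, c)] x = Function.update x ⟨v, hv⟩ c := by
  funext u
  unfold ovr
  by_cases hu : u = ⟨v, hv⟩
  · subst hu
    rw [Function.update_self]
    cases c <;> simp
  · rw [Function.update_of_ne hu]
    have hu' : (u : ℕ) ≠ v := fun h => hu (Fin.ext h)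
    simp [hu']

/-- Averaging over one variable. -/
theorem av_split {n : ℕ} (v : Fin n) (F : (Fin n → Bool) → ℝ) :
    (av fun x => F (Function.update x v false)) + (av fun x => F (Function.update x v true)) =
      2 * av F := by
  have hinv : Function.Involutive (fun x : Fin n → Bool => Function.update x v (!x v)) := by
    intro x
    funext u
    by_cases hu : u = v
    · subst hu
      simp
    · simp [Function.update_of_ne hu]
  have h2 : (av fun x => F (Function.update x v (!x v))) = av F :=
    av_equiv (Function.Involutive.toPerm _ hinv) F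
  rw [← av_add, two_mul]
  nth_rewrite 2 [← h2]
  rw [← av_add]
  refine av_congr fun x => ?_
  cases hx : x v
  · rw [show Function.update x v false = x by rw [← hx, Function.update_eq_self]]
    simp
  · rw [show Function.update x v true = x by rw [← hx, Function.update_eq_self]]
    simp [add_comm]

theorem prg (hS : StpStmt) (hR : RstStmt) (hT : TdlStmt) (hC : CndStmt) : PrgStmt := by
  intro n W b u0 c1 M s G hG hM hc1 hb hnM hal
  obtain ⟨hnd, hlt, hcand, hsmall⟩ := hC b M n s
  have hlen : (al n s).length ≤ n := by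
    have := List.length_filter_le (fun v => !s.contains (v, true) && !s.contains (v, false))
      (List.range n)
    rwa [List.length_range] at this
  have hM0 : (0 : ℝ) < M := by
    have : (0 : ℕ) < M := by omega
    exact_mod_cast this
  have hfG : frac n G = pr fun x : Fin n → Bool => ev (tdl n G) x = true :=
    (hT n W G hG).2.2.2.2
  rcases le_or_gt (2 ^ b) (al n s).length with hbig | hsm
  · -- pseudorandom candidates
    have hle : ((al n s).length : ℝ) / M ≤ (n : ℝ) / M :=
      div_le_div_of_nonneg_right (by exact_mod_cast hlen) hM0.le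
    obtain ⟨r, hr, y, hy, hry⟩ := hS n (tdl n G) (al n s) b W u0 c1 M (hT n W G hG).1
      (hT n W G hG).2.1 hnd hlt hM hc1 hb (hle.trans hnM)
    have hmem : ex (al n s) b r y ∈ cands b M n s := by
      unfold cands
      rw [if_pos hbig, List.mem_flatMap]
      exact ⟨r, hr, List.mem_map.2 ⟨y, hy, rfl⟩⟩
    refine ⟨_, hmem, ?_⟩
    obtain ⟨h1, h2, -, -⟩ := hcand _ hmem
    rw [frac_rst hR hT n W G hG _ h1 (fun p hp => hlt _ (h2 p hp)), hfG]
    refine hry.trans ?_
    refine add_le_add le_rfl ?_
    unfold loss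
    rw [(hT n W G hG).2.2.1]
    have h3 : (2 : ℝ) ^ c1 * (((al n s).length : ℝ) / M) ≤ 2 ^ c1 * ((n : ℝ) / M) :=
      mul_le_mul_of_nonneg_left hle (by positivity)
    linarith
  · -- both values of one variable
    obtain ⟨v, hv, hv1, hv2⟩ := hsmall hsm hal
    have hvn : v < n := hlt v hv
    have hloss : 0 ≤ loss W b u0 c1 M n G.length := by
      unfold loss
      have h0 : ∀ u ∈ Finset.Ico c1 (c1 + u0), (0 : ℝ) ≤ (8 * (W : ℝ) * (2 / 2 ^ b)) ^ u :=
        fun u _ => by positivity
      have h1 := Finset.sum_nonneg h0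
      have h2 : (0 : ℝ) ≤ (G.length : ℝ) * ((W : ℝ) * (2 / 2 ^ b)) ^ u0 := by positivity
      have h3 : (0 : ℝ) ≤ 2 ^ c1 * ((n : ℝ) / M) := by positivity
      linarith
    obtain ⟨F, hF⟩ : ∃ F : (Fin n → Bool) → ℝ,
        F = fun x => @ite ℝ (ev (tdl n G) x = true) (Classical.propDecidable _) 1 0 := ⟨_, rfl⟩
    have key : ∀ c : Bool, [(v, c)] ∈ cands b M n s →
        frac n (rst [(v, c)] G) =
          av fun x : Fin n → Bool => F (Function.update x ⟨v, hvn⟩ c) := by
      intro c hc
      obtain ⟨h1, h2, -, -⟩ := hcand _ hc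
      rw [frac_rst hR hT n W G hG _ h1 (fun p hp => hlt _ (h2 p hp)), pr_eq_av]
      refine av_congr fun x => ?_
      rw [ovr_one v hvn c x, hF]
    have hs := av_split ⟨v, hvn⟩ F
    rw [← key false hv1, ← key true hv2] at hs
    have hfG' : frac n G = av F := by
      rw [hfG, pr_eq_av, hF]
    rw [← hfG'] at hs
    rcases le_total (frac n G) (frac n (rst [(v, false)] G)) with h | h
    · exact ⟨_, hv1, by linarith⟩
    · exact ⟨_, hv2, by linarith⟩

end Pool.Agent.Helper87.CS
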